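import Pool.Agent.N717.EW.Det1

/-!
Project EW (helper116): long dual excursions and crossings of columns and rows.
-/

set_option autoImplicit false

namespace Pool.Agent.N717.EW

open H974 Finset H984N
open Pool.Agent.N116.EW

variable {D : Dm}

/-- the faces near the rectangle -/
def InD (D : Dm) (f : Vtx) : Prop := D.l ≤ f.1 ∧ f.1 ≤ D.r ∧ -1 ≤ f.2 ∧ f.2 ≤ D.h

theorem dual_range {e : Edg} (he : e ∈ D.edges) (hw : e ∉ D.wir) :
    InD D (dsrc e) ∧ InD D (dtgt e) := by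
  obtain ⟨x, y, b⟩ := e
  unfold InD
  rw [mem_edges] at he
  cases b
  · rw [wir_iff.2] at hw
    rw [mem_RE_false] at he
    simp only [dsrc_false, dtgt_mk]
    omega
  · rw [mem_RE_true] at he
    simp only [dsrc_true, dtgt_mk]
    omega

theorem inD_path {H : Set Edg} (hH : ∀ g ∈ H, g ∈ D.edges ∧ g ∉ D.wir) {z w : Vtx}
    (hz : InD D z) (h : DReach H z w) : InD D w := by
  induction h with
  | refl => exact hz
  | tail _ hs _ =>
    obtain ⟨e, he, hc⟩ := hs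
    have := dual_range (hH e he).1 (hH e he).2
    rcases hc with ⟨-, h5⟩ | ⟨h4, -⟩
    · rw [← h5]; exact this.2
    · rw [← h4]; exact this.1

theorem sd_cases {s ρ : ℕ} (hρ : s ≤ ρ) {v w : Vtx} (hw : (ρ : ℤ) ≤ sd v w) :
    (v.1 + s ≤ w.1 ∨ v.2 + s ≤ w.2) ∨ (w.1 + s ≤ v.1 ∨ w.2 + s ≤ v.2) := by
  unfold sd at hw
  have h3 : (s : ℤ) ≤ ρ := by exact_mod_cast hρ
  rcases le_max_iff.1 (h3.trans hw) with h | h
  · rcases le_abs.1 h with h | h
    · right; left; omega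
    · left; left; omega
  · rcases le_abs.1 h with h | h
    · right; right; omega
    · left; right; omega

/-- no long excursions of faces above the good event -/
theorem badW_U (hD : D.Ok) {s N : ℕ} (hs : 1 ≤ s)
    (hN1 : D.r - D.l ≤ N * s) (hN2 : D.h ≤ N * s) {F : Finset Edg}
    (hF : GoodU D s N F) {ρ : ℕ} (hρ : 2 * s + 1 ≤ ρ) : ¬ BadW D ρ F D.edges := by
  rintro ⟨e, heG, heF, x, y, z, -, hyz, -, -, -, w, hw, hr⟩
  have hew : e ∉ D.wir := fun h => heF (Or.inr h)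
  have hz : InD D z := by
    have := dual_range heG hew
    rcases hyz with ⟨-, rfl⟩ | ⟨-, rfl⟩
    · exact this.2
    · exact this.1
  have hr' : DReach {g | g ∈ D.edges ∧ g ∉ D.cfg F} z w :=
    hr.mono (by rintro g ⟨h1, h2, -⟩; exact ⟨h1, h2⟩)
  have hwD : InD D w := inD_path (H := {g | g ∈ D.edges ∧ g ∉ D.cfg F})
    (by rintro g ⟨h1, h2⟩; exact ⟨h1, fun h => h2 (Or.inr h)⟩) hz hr'
  obtain ⟨a1, a2, a3, a4⟩ := hz
  obtain ⟨b1, b2, b3, b4⟩ := hwD
  rcases sd_cases hρ hw with h | h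
  · exact sepW hD hs hN1 hN2 hF a1 a3 b2 b4 hr' (by push_cast at h; omega)
  · exact sepW hD hs hN1 hN2 hF b1 b3 a2 a4 hr'.symm (by push_cast at h; omega)

/-- a long open path is impossible -/
theorem sepL (hD : D.Ok) {s N : ℕ} (hs : 1 ≤ s)
    (hN1 : D.r - D.l ≤ N * s) (hN2 : D.h ≤ N * s) {G : Finset Edg} (hGD : G ⊆ D.edges)
    (hG : GoodL D s N G)
    {v w : Vtx} (hvin : inR D.l D.r 0 D.h v) (hwin : inR D.l D.r 0 D.h w)
    (h : Reach (↑G : Set Edg) v w)
    (hd : v.1 + 2 * s ≤ w.1 ∨ v.2 + 2 * s ≤ w.2) : False := by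
  have hl := hD.l_neg
  have hr := hD.r_pos
  have hGm : ∀ g ∈ (↑G : Set Edg), g ∈ RE D.l D.r 0 D.h := fun g hg => hGD hg
  unfold inR at hvin hwin
  rcases hd with hd | hd
  · obtain ⟨i, hi, h1, h2⟩ := grid (s := s) (N := N) hs hvin.1.1 hwin.1.2 hd hN1
    have e : ((i : ℤ) + 1) * s = (i : ℤ) * s + s := by ring
    have his : (0 : ℤ) ≤ (i : ℤ) * s := by positivity
    obtain ⟨y1, y2, hy1, hy2, hL, -⟩ := sub_LR (a := D.l + i * s) (b := D.l + ((i : ℤ) + 1) * s)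
      (c := 0) (d := D.h) (by omega)
      (by intro x y hg _ _; have := hGm _ hg; rw [mem_RE_true] at this; omega)
      (by intro x y hg _ _; have := hGm _ hg; rw [mem_RE_false] at this; omega) h h1 h2
    exact (hG i hi).1 (by omega) ⟨y1, y2, hy1, hy2, hL⟩
  · obtain ⟨i, hi, h1, h2⟩ := grid (s := s) (N := N) hs hvin.2.1 hwin.2.2 hd (by omega)
    have e : ((i : ℤ) + 1) * s = (i : ℤ) * s + s := by ring
    have his : (0 : ℤ) ≤ (i : ℤ) * s := by positivity
    rw [zero_add] at h1 h2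
    obtain ⟨y1, y2, hy1, hy2, hL, -⟩ := sub_TB (a := D.l) (b := D.r) (c := i * s)
      (d := ((i : ℤ) + 1) * s) (by omega)
      (by intro x y hg _ _; have := hGm _ hg; rw [mem_RE_false] at this; omega)
      (by intro x y hg _ _; have := hGm _ hg; rw [mem_RE_true] at this; omega) h h1 h2
    exact (hG i hi).2 (by omega) ⟨y1, y2, hy1, hy2, hL⟩

/-- no long excursions of vertices below the good event -/
theorem badV_L (hD : D.Ok) {s N : ℕ} (hs : 1 ≤ s)
    (hN1 : D.r - D.l ≤ N * s) (hN2 : D.h ≤ N * s) {G : Finset Edg} (hGD : G ⊆ D.edges)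
    (hG : GoodL D s N G) {ρ : ℕ} (hρ : 2 * s ≤ ρ) : ¬ BadV D ρ ∅ G := by
  rintro ⟨e, heG, -, x, v, y, hEn, -, -, -, -, w, hw, hr⟩
  have hr' : Reach (↑G : Set Edg) v w := by
    refine hr.mono ?_
    rintro g ⟨h1 | h1, h2, -⟩
    · exact h1
    · exact absurd (wir_clu hD ∅ h1) h2
  have hvin : inR D.l D.r 0 D.h v := by
    have := in_of_edge (hGD heG)
    rcases hEn with ⟨-, rfl⟩ | ⟨-, rfl⟩
    · exact this.2
    · exact this.1
  have hwin := in_of_reach (G := ↑G) (fun g hg => hGD hg) hvin hr'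
  rcases sd_cases hρ hw with h | h
  · exact sepL hD hs hN1 hN2 hGD hG hvin hwin hr' (by push_cast at h; omega)
  · exact sepL hD hs hN1 hN2 hGD hG hwin hvin hr'.symm (by push_cast at h; omega)

theorem srcdl (K : Set Vtx) {H : Set Edg} (h : ∀ e ∈ H, (dsrc e ∈ K ↔ dtgt e ∈ K)) :
    ∀ g ∈ dl '' H, (src g ∈ K ↔ tgt g ∈ K) := by
  rintro _ ⟨e, he, rfl⟩
  rw [src_dl, tgt_dl]
  exact h e he

/-- closed dual crossing of a column, as a path of faces -/
theorem colD {G : Finset Edg} {a b h : ℤ} (hab : a < b) (hh : 2 ≤ h)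
    (hn : ¬ LRc a b 0 h G) : ∃ x x', (a ≤ x ∧ x < b) ∧ (a ≤ x' ∧ x' < b) ∧
      Reach (dl '' ({e | e ∉ G} ∩ ↑(LRE a b 1 (h - 1))) ∩ ↑(TBE a (b - 1) 0 (h - 1)))
        (x, 0) (x', h - 1) := by
  obtain ⟨x, x', hx, hx', hr⟩ := dual_of_not_LRc (a := a) (b := b) (c := 1) (d := h - 1) hab.le
    (by omega) (F := G) (fun h1 => hn (LRc_sub le_rfl hab le_rfl (by omega) (by omega) h1))
  refine ⟨x, x', hx, hx', ?_⟩
  rw [← reach_dl] at hr
  have e0 : (1 : ℤ) - 1 = 0 := by norm_num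
  rw [e0] at hr
  refine hr.mono ?_
  rintro g hg
  refine ⟨hg, ?_⟩
  obtain ⟨g', hg', rfl⟩ := hg
  have e3 : TBE a (b - 1) 0 (h - 1) = dmp (LRE a b 1 (h - 1)) := by
    rw [dmp_LRE]; rfl
  rw [e3, Finset.mem_coe, mem_dmp, Equiv.symm_apply_apply]
  exact hg'.2

/-- closed dual crossing of a row, as a path of faces -/
theorem rowD {G : Finset Edg} {l r c d : ℤ} (hlr : l < r) (hcd : c < d)
    (hn : ¬ TBc l r c d G) : ∃ y y', (c ≤ y ∧ y < d) ∧ (c ≤ y' ∧ y' < d) ∧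
      Reach (dl '' ({e | e ∉ G} ∩ ↑(TBE (l + 1) r c d)) ∩ ↑(LRE l r c (d - 1)))
        (l, y) (r, y') := by
  obtain ⟨y, y', hy, hy', hr⟩ := dual_of_not_TBc (a := l + 1) (b := r) (c := c) (d := d)
    (by omega) hcd.le (F := G)
    (fun h1 => hn (TBc_sub le_rfl hcd le_rfl (by omega) le_rfl h1))
  refine ⟨y, y', hy, hy', ?_⟩
  rw [← reach_dl, add_sub_cancel_right] at hr
  refine hr.mono ?_
  rintro g hg
  refine ⟨hg, ?_⟩
  obtain ⟨g', hg', rfl⟩ := hg
  have e3 : LRE l r c (d - 1) = dmp (TBE (l + 1) r c d) := by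
    rw [dmp_TBE, add_sub_cancel_right]
  rw [e3, Finset.mem_coe, mem_dmp, Equiv.symm_apply_apply]
  exact hg'.2

/-- a long dual path off the cluster of faces is impossible -/
theorem sepLW (hD : D.Ok) {s N : ℕ} (hs : 2 ≤ s) (hsh : (s : ℤ) ≤ D.h) (hN : 1 ≤ N)
    (hN1 : D.r - D.l ≤ N * s) (hN2 : D.h ≤ N * s) {G : Finset Edg}
    (hG : GoodL D s N G) {K : Set Vtx}
    (hK : ∀ e ∈ D.edges, e ∉ G → e ∉ D.wir → (dsrc e ∈ K ↔ dtgt e ∈ K)) (hKo : D.outer ⊆ K)
    {v w : Vtx} (hv1 : D.l ≤ v.1) (hv2 : -1 ≤ v.2) (hw1 : w.1 ≤ D.r) (hw2 : w.2 ≤ D.h)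
    (hv : v ∉ K)
    (h : DReach {g | g ∈ D.edges ∧ g ∉ D.wir ∧ dsrc g ∉ K ∧ dtgt g ∉ K} v w)
    (hd : v.1 + 2 * s + 1 ≤ w.1 ∨ v.2 + 2 * s + 1 ≤ w.2) : False := by
  have hl := hD.l_neg
  have hr := hD.r_pos
  have hh := hD.h_pos
  have hlt := hD.l_le
  have htr := hD.le_r
  obtain ⟨H, hH⟩ : ∃ H : Set Edg, H = {g | g ∈ D.edges ∧ g ∉ D.wir ∧ dsrc g ∉ K ∧ dtgt g ∉ K} :=
    ⟨_, rfl⟩
  rw [← hH, ← reach_dl] at h
  have hHK : ∀ g ∈ dl '' H, (src g ∈ K ↔ tgt g ∈ K) := by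
    apply srcdl
    intro e he
    rw [hH] at he
    obtain ⟨-, -, h1, h2⟩ := he
    tauto
  have hHt : ∀ x y, ((x, y, true) : Edg) ∈ dl '' H → 0 ≤ y ∧ y < D.h ∧ D.l ≤ x ∧
      x + 1 < D.r := by
    rintro x y ⟨⟨x', y', b'⟩, he, heq⟩
    cases b'
    · rw [dl_f, Prod.mk.injEq, Prod.mk.injEq] at heq
      obtain ⟨e1, e2, -⟩ := heq
      rw [hH] at he
      obtain ⟨h1, h2, h3, h4⟩ := he
      rw [mem_edges, mem_RE_false] at h1
      rw [wir_iff.2] at h2
      have h5 : x' ≠ D.r := by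
        intro h5
        apply h4
        apply hKo
        show _ ∨ _ ∨ _
        right; left
        simp only [dtgt_mk]
        omega
      omega
    · rw [dl_t] at heq
      simp at heq
  have hHf : ∀ x y, ((x, y, false) : Edg) ∈ dl '' H → 0 ≤ y ∧ y + 1 < D.h ∧ D.l ≤ x ∧
      x < D.r := by
    rintro x y ⟨⟨x', y', b'⟩, he, heq⟩
    cases b'
    · rw [dl_f] at heq
      simp at heq
    · rw [dl_t, Prod.mk.injEq, Prod.mk.injEq] at heq
      obtain ⟨e1, e2, -⟩ := heq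
      rw [hH] at he
      obtain ⟨h1, h2, h3, h4⟩ := he
      rw [mem_edges, mem_RE_true] at h1
      rw [wir_iff.1] at h2
      have h5 : y' ≠ 0 := by
        intro h5
        apply h3
        apply hKo
        show _ ∨ _ ∨ _
        left
        simp only [dsrc_true]
        omega
      have h6 : y' ≠ D.h := by
        intro h5
        apply h4
        apply hKo
        show _ ∨ _ ∨ _
        right; right
        simp only [dtgt_mk]
        omega
      omega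
  -- closed crossings
  have hcol : ∀ a b : ℤ, D.l ≤ a → b ≤ D.r → ∀ g ∈ dl '' ({e | e ∉ G} ∩ ↑(LRE a b 1 (D.h - 1))),
      (src g ∈ K ↔ tgt g ∈ K) := by
    intro a b ha hb
    apply srcdl
    rintro ⟨x, y, b0⟩ ⟨h1, h2⟩
    cases b0
    · rw [Finset.mem_coe, mem_LRE_false] at h2
      exact hK _ (by rw [mem_edges, mem_RE_false]; omega) h1 (by rw [wir_iff.2]; omega)
    · rw [Finset.mem_coe, mem_LRE_true] at h2
      exact hK _ (by rw [mem_edges, mem_RE_true]; omega) h1 (by rw [wir_iff.1]; omega)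
  have hrow : ∀ c d : ℤ, 0 ≤ c → d ≤ D.h → ∀ g ∈ dl '' ({e | e ∉ G} ∩ ↑(TBE (D.l + 1) D.r c d)),
      (src g ∈ K ↔ tgt g ∈ K) := by
    intro c d hc hd
    apply srcdl
    rintro ⟨x, y, b0⟩ ⟨h1, h2⟩
    cases b0
    · rw [Finset.mem_coe, mem_TBE_false] at h2
      exact hK _ (by rw [mem_edges, mem_RE_false]; omega) h1 (by rw [wir_iff.2]; omega)
    · rw [Finset.mem_coe, mem_TBE_true] at h2
      exact hK _ (by rw [mem_edges, mem_RE_true]; omega) h1 (by rw [wir_iff.1]; omega)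
  have hright : ∀ y, 0 ≤ y → y < D.h → ((D.r, y) : Vtx) ∈ K := by
    intro y h0 h1
    apply hKo
    show _ ∨ _ ∨ _
    right; left
    exact ⟨rfl, by simp only; omega, by simp only; omega⟩
  rcases hd with hd | hd
  · obtain ⟨i, hi, h1, h2⟩ := grid (l := D.l) (r := D.r) (x0 := v.1) (x1 := w.1) (s := s)
      (N := N) (by omega) hv1 hw1 (by omega) hN1
    have e : ((i : ℤ) + 1) * s = (i : ℤ) * s + s := by ring
    have his : (0 : ℤ) ≤ (i : ℤ) * s := by positivity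
    have hnL := (hG i hi).1 (by omega)
    obtain ⟨a, ha⟩ : ∃ a : ℤ, a = D.l + i * s := ⟨_, rfl⟩
    obtain ⟨b, hb⟩ : ∃ b : ℤ, b = D.l + ((i : ℤ) + 1) * s := ⟨_, rfl⟩
    have hab : a + s = b := by rw [ha, hb, e]; ring
    rw [← ha, ← hb] at hnL
    rw [← ha] at h1
    rw [← hb] at h2
    have hal : D.l ≤ a := by omega
    have hbr : b ≤ D.r := by omega
    obtain ⟨y1, y2, hy1, hy2, hL, hL2⟩ := sub_LR (a := a) (b := b - 1) (c := 0) (d := D.h - 1)
      (by omega)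
      (by intro x y hg _ _; have := hHt x y hg; omega)
      (by intro x y hg _ _; have := hHf x y hg; omega) h h1 (by omega)
    obtain ⟨x, x', hx, hx', hT⟩ := colD (by omega) (by omega) hnL
    have m1 := meetK (K := K) (by omega) (by omega) hy2 (by omega) hL hT hHK (hcol a b hal hbr)
    have c1 := const_path hHK hL2
    have hnT := (hG 0 hN).2 (by push_cast; omega)
    have e0 : (((0:ℕ) : ℤ)) * (s:ℤ) = 0 := by simp
    have e1 : (((0:ℕ) : ℤ) + 1) * (s:ℤ) = s := by simp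
    rw [e0, e1] at hnT
    obtain ⟨z, z', hz, hz', hR⟩ := rowD (by omega) (by omega) hnT
    obtain ⟨a1, a2, ha1, ha2, hA, hA2⟩ := sub_LR (a := a) (b := b - 1) (c := 0) (d := (s:ℤ) - 1)
      (by omega)
      (by intro x y hg _ _; have := hg.2; rw [Finset.mem_coe, mem_LRE_true] at this; omega)
      (by intro x y hg _ _; have := hg.2; rw [Finset.mem_coe, mem_LRE_false] at this; omega) hR
      (by simp only; omega) (by simp only; omega)
    obtain ⟨b1, b2, hb1, hb2, hB, hB2⟩ := sub_TB (a := a) (b := b - 1) (c := 0) (d := (s:ℤ) - 1)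
      (by omega)
      (by intro x y hg _ _; have := hg.2; rw [Finset.mem_coe, mem_TBE_false] at this; omega)
      (by intro x y hg _ _; have := hg.2; rw [Finset.mem_coe, mem_TBE_true] at this; omega) hT
      (by simp only; omega) (by simp only; omega)
    have m2 := meetK (K := K) (by omega) (by omega) ha2 hb1 hA hB
      (fun g hg => hrow 0 s le_rfl hsh g hg.1) (fun g hg => hcol a b hal hbr g hg.1)
    have c2 := const_path (K := K) (fun g hg => hrow 0 s le_rfl hsh g hg.1) hA2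
    have c3 := const_path (K := K) (fun g hg => hcol a b hal hbr g hg.1) hB2
    have c4 := const_path (K := K) (fun g hg => hrow 0 s le_rfl hsh g hg.1) hR
    have c5 := hright z' (by omega) (by omega)
    tauto
  · obtain ⟨i, hi, h1, h2⟩ := grid (l := 0) (r := D.h) (x0 := v.2 + 1) (x1 := w.2) (s := s)
      (N := N) (by omega) (by omega) hw2 (by omega) (by omega)
    rw [zero_add] at h1 h2
    have e : ((i : ℤ) + 1) * s = (i : ℤ) * s + s := by ring
    have his : (0 : ℤ) ≤ (i : ℤ) * s := by positivity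
    have hnT := (hG i hi).2 (by omega)
    obtain ⟨c, hc⟩ : ∃ c : ℤ, c = i * s := ⟨_, rfl⟩
    obtain ⟨d, hd'⟩ : ∃ d : ℤ, d = ((i : ℤ) + 1) * s := ⟨_, rfl⟩
    have hcd : c + s = d := by rw [hc, hd', e]
    rw [← hc, ← hd'] at hnT
    rw [← hc] at h1 his
    rw [← hd'] at h2
    obtain ⟨y1, y2, hy1, hy2, hL, hL2⟩ := sub_TB (a := D.l) (b := D.r - 1) (c := c) (d := d - 1)
      (by omega)
      (by intro x y hg _ _; have := hHf x y hg; omega)
      (by intro x y hg _ _; have := hHt x y hg; omega) h (by omega) (by omega)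
    obtain ⟨z, z', hz, hz', hR⟩ := rowD (by omega) (by omega) hnT
    obtain ⟨a1, a2, ha1, ha2, hA, hA2⟩ := sub_LR (a := D.l) (b := D.r - 1) (c := c)
      (d := d - 1) (by omega)
      (by intro x y hg _ _; have := hg.2; rw [Finset.mem_coe, mem_LRE_true] at this; omega)
      (by intro x y hg _ _; have := hg.2; rw [Finset.mem_coe, mem_LRE_false] at this; omega) hR
      (by simp only; omega) (by simp only; omega)
    have m2 := meetK (K := K) (by omega) (by omega) ha2 hy1 hA hL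
      (fun g hg => hrow c d his (by omega) g hg.1) hHK
    have c1 := const_path hHK hL2
    have c2 := const_path (K := K) (fun g hg => hrow c d his (by omega) g hg.1) hA2
    have c4 := const_path (K := K) (fun g hg => hrow c d his (by omega) g hg.1) hR
    have c5 := hright z' (by omega) (by omega)
    tauto

/-- no long excursions of faces below the good event -/
theorem badW_L (hD : D.Ok) {s N : ℕ} (hs : 2 ≤ s) (hsh : (s : ℤ) ≤ D.h) (hN : 1 ≤ N)
    (hN1 : D.r - D.l ≤ N * s) (hN2 : D.h ≤ N * s) {G : Finset Edg} (hGD : G ⊆ D.edges)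
    (hG : GoodL D s N G) {ρ : ℕ} (hρ : 2 * s + 1 ≤ ρ) : ¬ BadW D ρ ∅ G := by
  rintro ⟨e, heG, heF, x, y, z, -, hyz, -, -, hzK, w, hw, hr⟩
  have heD : e ∈ D.edges := hGD heG
  have hew : e ∉ D.wir := fun h => heF (Or.inr h)
  have hz : InD D z := by
    have := dual_range heD hew
    rcases hyz with ⟨-, rfl⟩ | ⟨-, rfl⟩
    · exact this.2
    · exact this.1
  have hr' : DReach {g | g ∈ D.edges ∧ g ∉ D.wir ∧ dsrc g ∉ D.dclu G ∧ dtgt g ∉ D.dclu G} z w :=
    hr.mono (by rintro g ⟨h1, h2, h3, h4⟩; exact ⟨h1, fun h => h2 (Or.inr h), h3, h4⟩)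
  have hwD : InD D w := inD_path
    (H := {g | g ∈ D.edges ∧ g ∉ D.wir ∧ dsrc g ∉ D.dclu G ∧ dtgt g ∉ D.dclu G})
    (by rintro g ⟨h1, h2, -⟩; exact ⟨h1, h2⟩) hz hr'
  have hK : ∀ e ∈ D.edges, e ∉ G → e ∉ D.wir → (dsrc e ∈ D.dclu G ↔ dtgt e ∈ D.dclu G) := by
    intro e h1 h2 h3
    have hadj : DAdj (↑D.edges \ D.cfg G : Set Edg) (dsrc e) (dtgt e) := by
      refine ⟨e, ⟨h1, ?_⟩, Or.inl ⟨rfl, rfl⟩⟩
      rintro (h | h)
      · exact h2 h
      · exact h3 h
    constructor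
    · rintro ⟨g, hg, h4⟩
      exact ⟨g, hg, h4.trans hadj.reach⟩
    · rintro ⟨g, hg, h4⟩
      exact ⟨g, hg, h4.trans hadj.symm.reach⟩
  have hKo : D.outer ⊆ D.dclu G := fun g hg => ⟨g, hg, DReach.refl _ _⟩
  have hwK : w ∉ D.dclu G := by
    rw [← reach_dl] at hr'
    have := const_path (K := D.dclu G) (srcdl (D.dclu G) (by
      rintro g ⟨-, -, h3, h4⟩
      tauto)) hr'
    tauto
  obtain ⟨a1, a2, a3, a4⟩ := hz
  obtain ⟨b1, b2, b3, b4⟩ := hwD
  rcases sd_cases hρ hw with h | h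
  · exact sepLW hD hs hsh hN hN1 hN2 hG hK hKo a1 a3 b2 b4 hzK hr' (by push_cast at h; omega)
  · exact sepLW hD hs hsh hN hN1 hN2 hG hK hKo b1 b3 a2 a4 hwK hr'.symm
      (by push_cast at h; omega)

end Pool.Agent.N717.EW
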