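import Pool.Agent.N116.EW.Stm2
import Pool.Agent.H974R2.Split
import Pool.Agent.N717.EW.Det2

/-!
Project EW (helper116): long excursions away from the window, probability estimates.
-/

set_option autoImplicit false

namespace Pool.Agent.N717.EW

open H974 Finset H984N
open Pool.Agent.N116.EW

/-- bound for the crossing probabilities -/
def WinC (K : ℕ) (c C : ℝ) : Prop := ∀ p : ℝ, 0 ≤ p → p ≤ 1/2 → ∀ w h : ℕ, 1 ≤ w → w ≤ K * h →
  h ≤ K * w → hh p w h ≤ C * Real.exp (-(c * (w * (1/2 - p)^(4/3 : ℝ))))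

theorem union2 {p : Edg → ℝ} (hp : Ok p) (S : Finset Edg) (N : ℕ)
    (A B : ℕ → Finset Edg → Prop) {t : ℝ} (hA : ∀ i < N, Pr p S (A i) ≤ t)
    (hB : ∀ i < N, Pr p S (B i) ≤ t) :
    Pr p S (fun F => ∃ i ∈ Finset.range N, A i F ∨ B i F) ≤ 2 * N * t := by
  refine (Pr_exists_le hp S (Finset.range N) (fun i F => A i F ∨ B i F)).trans ?_
  have : ∀ i ∈ Finset.range N, Pr p S (fun F => A i F ∨ B i F) ≤ 2 * t := by
    intro i hi
    rw [Finset.mem_range] at hi
    have h1 := Pr_or_le hp S (A i) (B i)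
    have h2 := hA i hi
    have h3 := hB i hi
    linarith
  refine (Finset.sum_le_sum this).trans ?_
  rw [Finset.sum_const, Finset.card_range, nsmul_eq_mul]
  linarith

/-- an event which needs a condition -/
theorem Pr_cond {p : Edg → ℝ} (hp : Ok p) (S : Finset Edg) (Q : Prop) (A : Finset Edg → Prop)
    {t : ℝ} (ht : 0 ≤ t) (h : Q → Pr p S A ≤ t) : Pr p S (fun F => Q ∧ A F) ≤ t := by
  by_cases hQ : Q
  · exact (Pr_mono hp (fun F _ hF => hF.2)).trans (h hQ)
  · have : Pr p S (fun F => Q ∧ A F) = 0 := by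
      unfold Pr
      rw [Ex_congr (g := fun _ => 0) (fun F _ => ind_not_of (by tauto)), Ex_const]
    rw [this]
    exact ht

theorem supOf (hwin : ∀ K : ℕ, 1 ≤ K → ∃ c C : ℝ, 0 < c ∧ 0 < C ∧ WinC K c C) : S_SUP := by
  intro κ r hκ hr
  obtain ⟨r', hr'⟩ : ∃ r', r' = min r κ := ⟨_, rfl⟩
  have hr'0 : 0 < r' := by rw [hr']; exact lt_min hr hκ
  have hr'r : r' ≤ r := by rw [hr']; exact min_le_left _ _
  have hr'κ : r' ≤ κ := by rw [hr']; exact min_le_right _ _
  obtain ⟨K, hK⟩ : ∃ K : ℕ, K = ⌈16 / r'⌉₊ + 1 := ⟨_, rfl⟩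
  have hK1 : 1 ≤ K := by omega
  have hKr : 16 / r' ≤ K := by
    rw [hK]
    push_cast
    have := Nat.le_ceil (16 / r')
    linarith
  obtain ⟨c0, C0, hc0, hC0, hw⟩ := hwin K hK1
  refine ⟨2 * K * C0, c0 * r' / 16, 32 / r', by positivity, by positivity, ?_⟩
  intro n D hn0 hn1 hD p hp1 hp2 ρ hρ
  have hn : 32 ≤ r' * n := by
    rw [div_le_iff₀ hr'0] at hn0
    linarith
  have hn' : (0:ℝ) < n := by linarith
  obtain ⟨s, hs⟩ : ∃ s : ℕ, s = ⌊r' * n / 8⌋₊ := ⟨_, rfl⟩
  have hs1 : (s : ℝ) ≤ r' * n / 8 := by rw [hs]; exact Nat.floor_le (by positivity)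
  have hs2 : r' * n / 8 < s + 1 := by rw [hs]; exact Nat.lt_floor_add_one _
  have hs3 : r' * n / 16 ≤ s := by linarith
  have hs4 : 3 ≤ s := by
    have h1 : (3:ℝ) < ((s + 1 : ℕ) : ℝ) := by push_cast; linarith
    have h2 : 3 < s + 1 := by exact_mod_cast h1
    omega
  obtain ⟨hok, hl, hrr, hh1, hw2, hh2⟩ := hD
  have hκn : r' * n ≤ κ * n := mul_le_mul_of_nonneg_right hr'κ hn'.le
  have hrn : r' * n ≤ r * n := mul_le_mul_of_nonneg_right hr'r hn'.le
  -- naturals
  obtain ⟨H, hH⟩ := Int.eq_ofNat_of_zero_le hok.h_pos.le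
  obtain ⟨W, hW⟩ := Int.eq_ofNat_of_zero_le (show 0 ≤ D.r - D.l by
    have := hok.l_neg; have := hok.r_pos; omega)
  have hHr : (D.h : ℝ) = (H : ℝ) := by rw [hH]; rfl
  have hWr : ((D.r - D.l : ℤ) : ℝ) = (W : ℝ) := by rw [hW]; rfl
  rw [hHr] at hh1 hh2
  have hW1 : 2 * (κ * n) ≤ (W : ℝ) := by
    rw [← hWr]
    push_cast
    linarith
  rw [hWr] at hw2
  have h8H : 8 * s ≤ H := by
    have : ((8 * s : ℕ) : ℝ) ≤ (H : ℝ) := by push_cast; linarith
    exact_mod_cast this
  have h8W : 8 * s ≤ W := by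
    have : ((8 * s : ℕ) : ℝ) ≤ (W : ℝ) := by push_cast; linarith
    exact_mod_cast this
  have hnK : n ≤ K * s := by
    have h1 : 16 / r' * (r' * n / 16) = n := by field_simp
    have h2 : 16 / r' * (r' * n / 16) ≤ K * s :=
      mul_le_mul hKr hs3 (by positivity) (by positivity)
    linarith
  have hHK : H ≤ K * s := by
    have : (H : ℝ) ≤ ((K * s : ℕ) : ℝ) := by push_cast; linarith
    exact_mod_cast this
  have hWK : W ≤ K * s := by
    have : (W : ℝ) ≤ ((K * s : ℕ) : ℝ) := by push_cast; linarith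
    exact_mod_cast this
  have hρs : 2 * s + 1 ≤ ρ := by
    have : ((2 * s + 1 : ℕ) : ℝ) ≤ (ρ : ℝ) := by push_cast; linarith
    exact_mod_cast this
  have hN1 : D.r - D.l ≤ (K : ℤ) * s := by rw [hW]; exact_mod_cast hWK
  have hN2 : D.h ≤ (K : ℤ) * s := by rw [hH]; exact_mod_cast hHK
  have hsh : (s : ℤ) ≤ D.h := by rw [hH]; omega
  -- bounds
  obtain ⟨x, hx⟩ : ∃ x : ℝ, x = (p - 1/2)^(4/3 : ℝ) := ⟨_, rfl⟩
  have hx0 : 0 ≤ x := by rw [hx]; exact Real.rpow_nonneg (by linarith) _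
  rw [← hx]
  obtain ⟨t, ht⟩ : ∃ t : ℝ, t = C0 * Real.exp (-(c0 * r' / 16 * (n * x))) := ⟨_, rfl⟩
  have ht0 : 0 ≤ t := by rw [ht]; positivity
  have e2 : 2 * (K:ℝ) * C0 * Real.exp (-(c0 * r' / 16 * (n * x))) = 2 * K * t := by
    rw [ht]; ring
  rw [e2]
  have hwb : ∀ w h : ℕ, s ≤ w → w ≤ K * h → h ≤ K * w → hh (1 - p) w h ≤ t := by
    intro w h h1 h2 h3
    refine (hw (1 - p) (by linarith) (by linarith) w h (by omega) h2 h3).trans ?_
    rw [ht, show (1:ℝ)/2 - (1 - p) = p - 1/2 by ring, ← hx]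
    refine mul_le_mul_of_nonneg_left (Real.exp_le_exp.2 ?_) hC0.le
    have h4 : (s:ℝ) ≤ w := by exact_mod_cast h1
    have h5 : c0 * (r' * n / 16 * x) ≤ c0 * (w * x) :=
      mul_le_mul_of_nonneg_left (mul_le_mul_of_nonneg_right (by linarith) hx0) hc0.le
    have h6 : c0 * r' / 16 * (n * x) = c0 * (r' * n / 16 * x) := by ring
    rw [h6]
    linarith
  have ok1 : Ok (fun _ : Edg => p) := okq (by linarith) hp2
  have ok2 : Ok (fun _ : Edg => 1 - p) := okq (by linarith) (by linarith)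
  have hKs : ∀ m : ℕ, m ≤ K * m := fun m => Nat.le_mul_of_pos_left _ (by omega)
  have hRE : D.edges = RE D.l D.r 0 D.h := rfl
  constructor
  · -- supercritical
    have hG : ∀ F, F ⊆ D.edges → (BadV D ρ F D.edges ∨ BadW D ρ F D.edges) →
        ∃ i ∈ Finset.range K,
          (D.l + ((i : ℤ) + 1) * s ≤ D.r ∧
            ¬ TBc (D.l + i * s) (D.l + ((i : ℤ) + 1) * s) 0 D.h F) ∨
          (((i : ℤ) + 1) * s ≤ D.h ∧ ¬ LRc D.l D.r (i * s) (((i : ℤ) + 1) * s) F) := by
      intro F _ hF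
      by_contra hcon
      have hgood : GoodU D s K F := by
        intro i hi
        constructor
        · intro h1
          by_contra h2
          exact hcon ⟨i, Finset.mem_range.2 hi, Or.inl ⟨h1, h2⟩⟩
        · intro h1
          by_contra h2
          exact hcon ⟨i, Finset.mem_range.2 hi, Or.inr ⟨h1, h2⟩⟩
      rcases hF with h | h
      · exact badV_U hok (by omega) hsh hK1 hN1 hN2 hgood (by omega) h
      · exact badW_U hok (by omega) hN1 hN2 hgood hρs h
    refine (Pr_mono ok1 hG).trans (union2 ok1 D.edges K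
      (fun i F => D.l + ((i : ℤ) + 1) * s ≤ D.r ∧
            ¬ TBc (D.l + i * s) (D.l + ((i : ℤ) + 1) * s) 0 D.h F)
      (fun i F => ((i : ℤ) + 1) * s ≤ D.h ∧ ¬ LRc D.l D.r (i * s) (((i : ℤ) + 1) * s) F) ?_ ?_)
    · intro i _
      apply Pr_cond ok1 _ _ _ ht0
      intro hi
      have e : ((i : ℤ) + 1) * s = (i : ℤ) * s + s := by ring
      have his : (0 : ℤ) ≤ (i : ℤ) * s := by positivity
      rw [Pr_not, pr_TBc p (by
        rw [hRE]
        exact TBE_subset_RE.trans (RE_subset (by omega) hi le_rfl le_rfl)),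
        show D.h - 0 = (H:ℤ) by rw [hH]; simp,
        show D.l + ((i : ℤ) + 1) * s - (D.l + i * s) = (s:ℤ) by rw [e]; ring,
        hh_dual (by omega) (by omega), sub_sub_cancel]
      have := hwb (s + 1) (H - 1) (by omega) (le_trans (by omega) (hKs _))
        (le_trans (by omega) (hHK.trans (Nat.mul_le_mul_left K (Nat.le_succ s))))
      have e3 : ((H - 1 : ℕ) : ℤ) = (H:ℤ) - 1 := by omega
      rw [e3] at this
      push_cast at this
      exact this
    · intro i _
      apply Pr_cond ok1 _ _ _ ht0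
      intro hi
      have e : ((i : ℤ) + 1) * s = (i : ℤ) * s + s := by ring
      have his : (0 : ℤ) ≤ (i : ℤ) * s := by positivity
      rw [Pr_not, pr_LRc p (by
        rw [hRE]
        exact LRE_subset_RE.trans (RE_subset le_rfl le_rfl his hi)),
        hW,
        show ((i : ℤ) + 1) * s - (i * s) = (s:ℤ) by rw [e]; ring,
        hh_dual (by omega) (by omega), sub_sub_cancel]
      have := hwb (s + 1) (W - 1) (by omega) (le_trans (by omega) (hKs _))
        (le_trans (by omega) (hWK.trans (Nat.mul_le_mul_left K (Nat.le_succ s))))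
      have e3 : ((W - 1 : ℕ) : ℤ) = (W:ℤ) - 1 := by omega
      rw [e3] at this
      push_cast at this
      exact this
  · -- subcritical
    have hG : ∀ F, F ⊆ D.edges → (BadV D ρ ∅ F ∨ BadW D ρ ∅ F) →
        ∃ i ∈ Finset.range K,
          (D.l + ((i : ℤ) + 1) * s ≤ D.r ∧
            LRc (D.l + i * s) (D.l + ((i : ℤ) + 1) * s) 0 D.h F) ∨
          (((i : ℤ) + 1) * s ≤ D.h ∧ TBc D.l D.r (i * s) (((i : ℤ) + 1) * s) F) := by
      intro F hFD hF
      by_contra hcon
      have hgood : GoodL D s K F := by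
        intro i hi
        constructor
        · intro h1 h2
          exact hcon ⟨i, Finset.mem_range.2 hi, Or.inl ⟨h1, h2⟩⟩
        · intro h1 h2
          exact hcon ⟨i, Finset.mem_range.2 hi, Or.inr ⟨h1, h2⟩⟩
      rcases hF with h | h
      · exact badV_L hok (by omega) hN1 hN2 hFD hgood (by omega) h
      · exact badW_L hok (by omega) hsh hK1 hN1 hN2 hFD hgood hρs h
    refine (Pr_mono ok2 hG).trans (union2 ok2 D.edges K
      (fun i F => D.l + ((i : ℤ) + 1) * s ≤ D.r ∧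
            LRc (D.l + i * s) (D.l + ((i : ℤ) + 1) * s) 0 D.h F)
      (fun i F => ((i : ℤ) + 1) * s ≤ D.h ∧ TBc D.l D.r (i * s) (((i : ℤ) + 1) * s) F) ?_ ?_)
    · intro i _
      apply Pr_cond ok2 _ _ _ ht0
      intro hi
      have e : ((i : ℤ) + 1) * s = (i : ℤ) * s + s := by ring
      have his : (0 : ℤ) ≤ (i : ℤ) * s := by positivity
      rw [pr_LRc (1 - p) (by
        rw [hRE]
        exact LRE_subset_RE.trans (RE_subset (by omega) hi le_rfl le_rfl)),
        show D.h - 0 = (H:ℤ) by rw [hH]; simp,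
        show D.l + ((i : ℤ) + 1) * s - (D.l + i * s) = (s:ℤ) by rw [e]; ring]
      exact hwb s H le_rfl (le_trans (by omega) (hKs _)) hHK
    · intro i _
      apply Pr_cond ok2 _ _ _ ht0
      intro hi
      have e : ((i : ℤ) + 1) * s = (i : ℤ) * s + s := by ring
      have his : (0 : ℤ) ≤ (i : ℤ) * s := by positivity
      rw [pr_TBc (1 - p) (by
        rw [hRE]
        exact TBE_subset_RE.trans (RE_subset le_rfl le_rfl his hi)),
        hW,
        show ((i : ℤ) + 1) * s - (i * s) = (s:ℤ) by rw [e]; ring]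
      exact hwb s W le_rfl (le_trans (by omega) (hKs _)) hWK

end Pool.Agent.N717.EW
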