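import Pool.Agent.W424.NC.Win
import Pool.Agent.N717.EW.Prob

/-!
Project EW (helper116): away from the window the path follows a boundary arc.
-/

set_option autoImplicit false

namespace Pool.Agent.N717.EW

open Pool.Agent.N116.EW

theorem sup : S_SUP := supOf Pool.Agent.W424.NC.win_upper

end Pool.Agent.N717.EW
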