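import Pool.Agent.N116.EW.Stm
import Pool.Agent.H973R2.Arm1

/-!
Project EW (helper116): restriction and dichotomy for mixed four arms in an annulus.
-/

set_option autoImplicit false

namespace Pool.Agent.N717.EW

open H974 H12S H389NS H984N H984P H342P Finset
open Pool.Agent.W424.OD (AE Cl A3v)
open Pool.Agent.N116.EW

/-- in the box of radius `k` -/
def IB (c : ℤ × ℤ) (k : ℕ) (v : Vtx) : Prop := inR (c.1 - k) (c.1 + k) (c.2 - k) (c.2 + k) v

/-- not in the open box of radius `k` -/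
def Fa (c : ℤ × ℤ) (k : ℕ) (v : Vtx) : Prop :=
  v.1 ≤ c.1 - k ∨ c.1 + k ≤ v.1 ∨ v.2 ≤ c.2 - k ∨ c.2 + k ≤ v.2

theorem IB_def {c : ℤ × ℤ} {k : ℕ} {v : Vtx} : IB c k v ↔
    (c.1 - k ≤ v.1 ∧ v.1 ≤ c.1 + k) ∧ (c.2 - k ≤ v.2 ∧ v.2 ≤ c.2 + k) := Iff.rfl

theorem bdB_iff {c : ℤ × ℤ} {k : ℕ} {v : Vtx} : v ∈ bdB c k ↔ IB c k v ∧ Fa c k v := by
  constructor
  · rintro ⟨h1, h2, h3⟩
    rw [abs_le] at h1 h2
    refine ⟨by rw [IB_def]; omega, ?_⟩
    unfold Fa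
    rcases h3 with h3 | h3
    · rcases abs_choice (v.1 - c.1) with e | e <;> rw [e] at h3 <;> omega
    · rcases abs_choice (v.2 - c.2) with e | e <;> rw [e] at h3 <;> omega
  · rintro ⟨h1, h2⟩
    rw [IB_def] at h1
    unfold Fa at h2
    refine ⟨by rw [abs_le]; omega, by rw [abs_le]; omega, ?_⟩
    rcases h2 with h | h | h | h
    · left
      rw [show v.1 - c.1 = -(k:ℤ) by omega, abs_neg, Nat.abs_cast]
    · left
      rw [show v.1 - c.1 = (k:ℤ) by omega, Nat.abs_cast]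
    · right
      rw [show v.2 - c.2 = -(k:ℤ) by omega, abs_neg, Nat.abs_cast]
    · right
      rw [show v.2 - c.2 = (k:ℤ) by omega, Nat.abs_cast]

theorem mem_blk {c : ℤ × ℤ} {k : ℕ} {e : Edg} : e ∈ blk c k ↔ IB c k (src e) ∧ IB c k (tgt e) :=
  ⟨fun h => H973.mem_RE_ends h, fun h => H973.mem_RE_of_ends h.1 h.2⟩

/-- the two ends of an edge are neighbours -/
theorem ends_near (e : Edg) : (src e).1 ≤ (tgt e).1 ∧ (tgt e).1 ≤ (src e).1 + 1 ∧
    (src e).2 ≤ (tgt e).2 ∧ (tgt e).2 ≤ (src e).2 + 1 := by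
  obtain ⟨x, y, _ | _⟩ := e
  · simp
  · simp

theorem adj_near {G : Set Edg} {u v : Vtx} (h : Adj G u v) : u.1 ≤ v.1 + 1 ∧ v.1 ≤ u.1 + 1 ∧
    u.2 ≤ v.2 + 1 ∧ v.2 ≤ u.2 + 1 := by
  obtain ⟨e, -, ⟨h1, h2⟩ | ⟨h1, h2⟩⟩ := h
  · have := ends_near e
    rw [h1, h2] at this
    omega
  · have := ends_near e
    rw [h1, h2] at this
    omega

/-- the last visit of the box of radius `d` -/
theorem last_exit {G : Set Edg} {c : ℤ × ℤ} {d : ℕ} {u v : Vtx} (hu : IB c d u)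
    (h : Reach G u v) (hv : Fa c d v) :
    ∃ u' ∈ bdB c d, Reach G u u' ∧ Reach (G \ ↑(blk c d)) u' v := by
  induction h with
  | refl => exact ⟨u, bdB_iff.2 ⟨hu, hv⟩, Reach.refl _ _, Reach.refl _ _⟩
  | @tail w w' h1 hs ih =>
    by_cases hw' : IB c d w'
    · exact ⟨w', bdB_iff.2 ⟨hw', hv⟩, Reach.trans h1 hs.reach, Reach.refl _ _⟩
    · have hn := adj_near hs
      have hw : Fa c d w := by
        rw [IB_def] at hw'
        unfold Fa at hv ⊢
        omega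
      obtain ⟨u', hu', h2, h3⟩ := ih hw
      refine ⟨u', hu', h2, h3.trans (Adj.reach ?_)⟩
      obtain ⟨e, he, hc⟩ := hs
      refine ⟨e, ⟨he, ?_⟩, hc⟩
      intro heb
      rw [Finset.mem_coe, mem_blk] at heb
      rcases hc with ⟨h4, h5⟩ | ⟨h4, h5⟩
      · rw [h5] at heb
        exact hw' heb.2
      · rw [h4] at heb
        exact hw' heb.1

theorem mem_AE {c : ℤ × ℤ} {d k : ℕ} {e : Edg} : e ∈ AE c d k ↔ e ∈ blk c k ∧ e ∉ blk c d := by
  unfold AE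
  rw [Finset.mem_coe, Finset.mem_sdiff]

theorem blk_mono {c : ℤ × ℤ} {d k : ℕ} (h : d ≤ k) {e : Edg} (he : e ∈ blk c d) : e ∈ blk c k := by
  rw [mem_blk, IB_def, IB_def] at he ⊢
  omega

theorem AE_mono {c : ℤ × ℤ} {d d' k' k : ℕ} (h1 : d ≤ d') (h2 : k' ≤ k) :
    AE c d' k' ⊆ AE c d k := by
  intro e he
  rw [mem_AE] at he ⊢
  exact ⟨blk_mono h2 he.1, fun h => he.2 (blk_mono h1 h)⟩

/-- restriction of a crossing -/
theorem cross_sub {H : Set Edg} {c : ℤ × ℤ} {d d' k' k : ℕ} {u w : Vtx} (h1 : d ≤ d')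
    (h2 : d' ≤ k') (h3 : k' ≤ k) (hu : u ∈ bdB c d) (hw : w ∈ bdB c k)
    (h : Reach (H ∩ AE c d k) u w) : ∃ u' ∈ bdB c d', ∃ w' ∈ bdB c k',
      Reach (H ∩ AE c d k) u u' ∧ Reach (H ∩ AE c d' k') u' w' := by
  have hu1 : IB c d' u := by
    have := (bdB_iff.1 hu).1
    rw [IB_def] at this ⊢
    omega
  have hw1 : Fa c d' w ∧ Fa c k' w := by
    have := (bdB_iff.1 hw).2
    unfold Fa at this ⊢
    omega
  obtain ⟨u', hu', h4, h5⟩ := last_exit hu1 h hw1.1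
  have hu2 : IB c k' u' := by
    have := (bdB_iff.1 hu').1
    rw [IB_def] at this ⊢
    omega
  obtain ⟨w', h6, h7, h8⟩ := first_exit hu2 h5 hw1.2
  refine ⟨u', hu', w', bdB_iff.2 ⟨h6, ?_⟩, h4, h8.mono ?_⟩
  · unfold Fa
    omega
  · rintro e ⟨⟨⟨h9, -⟩, h10⟩, h11⟩
    exact ⟨h9, mem_AE.2 ⟨h11, h10⟩⟩

/-- a path of edges off `K` stays off `K` -/
theorem off_path {H : Set Edg} {K : Set Vtx} (hH : ∀ g ∈ H, src g ∉ K ∧ tgt g ∉ K) {x y : Vtx}
    (hx : x ∉ K) (h : Reach H x y) : y ∉ K := by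
  induction h with
  | refl => exact hx
  | tail _ hs _ =>
    obtain ⟨e, he, hc⟩ := hs
    rcases hc with ⟨-, h5⟩ | ⟨h4, -⟩
    · rw [← h5]; exact (hH e he).2
    · rw [← h4]; exact (hH e he).1

/-- the first entry in `K` -/
theorem first_entry {G : Set Edg} {K : Set Vtx} {a b : Vtx} (ha : a ∉ K) (h : Reach G a b)
    (hb : b ∈ K) : ∃ e ∈ G, ∃ p q : Vtx, En e p q ∧ p ∈ K ∧ q ∉ K ∧
      Reach {g | g ∈ G ∧ src g ∉ K ∧ tgt g ∉ K} a q := by
  have key : ∀ z, Reach G a z → (∃ e ∈ G, ∃ p q : Vtx, En e p q ∧ p ∈ K ∧ q ∉ K ∧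
      Reach {g | g ∈ G ∧ src g ∉ K ∧ tgt g ∉ K} a q) ∨
      (z ∉ K ∧ Reach {g | g ∈ G ∧ src g ∉ K ∧ tgt g ∉ K} a z) := by
    intro z hz
    induction hz with
    | refl => exact Or.inr ⟨ha, Reach.refl _ _⟩
    | @tail w w' _ hs ih =>
      rcases ih with ih | ⟨ih1, ih2⟩
      · exact Or.inl ih
      · obtain ⟨e, he, hc⟩ := hs
        by_cases hw' : w' ∈ K
        · left
          refine ⟨e, he, w', w, ?_, hw', ih1, ih2⟩
          rcases hc with ⟨h4, h5⟩ | ⟨h4, h5⟩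
          · exact Or.inr ⟨h5.symm, h4.symm⟩
          · exact Or.inl ⟨h4.symm, h5.symm⟩
        · right
          refine ⟨hw', ih2.trans (Adj.reach ⟨e, ⟨he, ?_⟩, hc⟩)⟩
          rcases hc with ⟨h4, h5⟩ | ⟨h4, h5⟩
          · rw [h4, h5]; exact ⟨ih1, hw'⟩
          · rw [h4, h5]; exact ⟨hw', ih1⟩
  rcases key b h with h1 | ⟨h1, -⟩
  · exact h1
  · exact absurd hb h1

theorem xaSub : S_XAsub := by
  intro c d d' k' k F G hd h1 h2 h3 ⟨u, hu, ⟨w, hw, hr⟩, x, hx, y, hy, hxK, hr'⟩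
  obtain ⟨u1, hu1, w1, hw1, h4, h5⟩ := cross_sub h1 h2 h3 hu hw hr
  obtain ⟨x1, hx1, y1, hy1, h6, h7⟩ := cross_sub h1 h2 h3 hx hy hr'
  have hsub : Cl c d' k' F u1 ⊆ Cl c d k F u := by
    intro z hz
    exact Reach.trans h4 (Reach.mono (Set.inter_subset_inter_right _ (AE_mono h1 h3)) hz)
  refine ⟨u1, hu1, ⟨w1, hw1, h5⟩, x1, hx1, y1, hy1, ?_, ?_⟩
  · intro hc
    refine off_path (K := Cl c d k F u) ?_ hxK h6 (hsub hc)
    rintro g ⟨⟨-, g1, g2⟩, -⟩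
    exact ⟨g1, g2⟩
  · refine h7.mono ?_
    rintro g ⟨⟨g0, g1, g2⟩, g3⟩
    exact ⟨⟨g0, fun h => g1 (hsub h), fun h => g2 (hsub h)⟩, g3⟩

theorem dichA : S_DICHA := by
  intro c d k F G hd hk hFG hXA
  obtain ⟨u, hu, ⟨w, hw, hr⟩, x, hx, y, hy, hxK, hr'⟩ := hXA
  have hXA : XA c d k F G := ⟨u, hu, ⟨w, hw, hr⟩, x, hx, y, hy, hxK, hr'⟩
  obtain ⟨K, hK⟩ : ∃ K, K = Cl c d k F u := ⟨_, rfl⟩
  rw [← hK] at hxK hr'
  obtain ⟨u1, hu1, w1, hw1, h4, h5⟩ := cross_sub (d' := 2 * d) (k' := k / 2) (by omega) (by omega)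
    (by omega) hu hw hr
  obtain ⟨x1, hx1, y1, hy1, h6, h7⟩ := cross_sub (d' := 2 * d) (k' := k / 2) (by omega) (by omega)
    (by omega) hx hy hr'
  have hAE : AE c (2 * d) (k / 2) ⊆ AE c d k := AE_mono (by omega) (by omega)
  have hx1K : x1 ∉ K := by
    refine off_path ?_ hxK h6
    rintro g ⟨⟨-, g1, g2⟩, -⟩
    exact ⟨g1, g2⟩
  have hu1K : u1 ∈ K := by rw [hK]; exact h4
  by_cases hc : Reach (G ∩ AE c (2 * d) (k / 2)) u1 x1
  · right
    obtain ⟨e, ⟨heG, heA⟩, p, q, hEn, hpK, hqK, hq⟩ := first_entry hx1K hc.symm hu1K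
    have heF : e ∉ F := by
      intro heF
      apply hqK
      rw [hK] at hpK ⊢
      refine Reach.trans hpK (Adj.reach ⟨e, ⟨heF, hAE heA⟩, ?_⟩)
      rcases hEn with ⟨h8, h9⟩ | ⟨h8, h9⟩
      · exact Or.inl ⟨h8.symm, h9.symm⟩
      · exact Or.inr ⟨h9.symm, h8.symm⟩
    have heA' := mem_AE.1 heA
    -- size
    obtain ⟨D, hD⟩ : ∃ D, D = nrm c e := ⟨_, rfl⟩
    have hDe : D = max ((src e).1 - c.1).natAbs ((src e).2 - c.2).natAbs := hD
    have hn := ends_near e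
    have hD1 : 2 * d ≤ D := by
      by_contra hlt
      apply heA'.2
      rw [mem_blk, IB_def, IB_def]
      omega
    have hD2 : D ≤ k / 2 := by
      have := heA'.1
      rw [mem_blk, IB_def, IB_def] at this
      omega
    refine ⟨e, heA'.1, heA'.2, heG, heF, ?_, ?_, ?_⟩
    · rw [← hD]
      intro hm
      obtain ⟨m, hmD⟩ : ∃ m, m = D / 4 := ⟨_, rfl⟩
      rw [← hmD] at hm ⊢
      have hblk : ∀ g ∈ blk (src e) m, g ∈ AE c d k := by
        intro g hg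
        rw [mem_blk, IB_def, IB_def] at hg
        rw [mem_AE, mem_blk, mem_blk, IB_def, IB_def, IB_def, IB_def]
        omega
      have hCB : CB (src e) m (F \ {e}) p ⊆ K := by
        intro z hz
        rw [hK] at hpK ⊢
        refine Reach.trans hpK (Reach.mono ?_ hz)
        rintro g ⟨⟨g1, -⟩, g2⟩
        exact ⟨g1, hblk g g2⟩
      have hpin : IB (src e) m p ∧ IB (src e) m q := by
        rw [IB_def, IB_def]
        rcases hEn with ⟨rfl, rfl⟩ | ⟨rfl, rfl⟩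
        · omega
        · omega
      have hfar : ∀ z ∈ bdB c d, Fa (src e) m z := by
        intro z hz
        have := (bdB_iff.1 hz).1
        rw [IB_def] at this
        unfold Fa
        omega
      refine ⟨p, q, hEn, fun h => hqK (hCB h), ?_, ?_⟩
      · have hpu : Reach (F \ {e}) p u := by
          rw [hK] at hpK
          refine (Reach.symm hpK).mono ?_
          rintro g ⟨g1, -⟩
          exact ⟨g1, fun h => heF (by rwa [Set.mem_singleton_iff.1 h] at g1)⟩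
        obtain ⟨w', h8, h9, h10⟩ := first_exit hpin.1 hpu (hfar u hu)
        refine ⟨w', bdB_iff.2 ⟨h8, ?_⟩, h10⟩
        unfold Fa
        omega
      · have hqx : Reach {g | g ∈ G ∧ src g ∉ K ∧ tgt g ∉ K} q x := by
          refine Reach.trans (v := x1) ?_ ?_
          · refine (Reach.symm hq).mono ?_
            rintro g ⟨⟨g1, -⟩, g2⟩
            exact ⟨g1, g2⟩
          · refine (Reach.symm h6).mono ?_
            rintro g ⟨g1, -⟩
            exact g1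
        obtain ⟨w', h8, h9, h10⟩ := first_exit hpin.2 hqx (hfar x hx)
        refine ⟨w', bdB_iff.2 ⟨h8, ?_⟩, h10.mono ?_⟩
        · unfold Fa
          omega
        · rintro g ⟨⟨g0, g1, g2⟩, g3⟩
          refine ⟨⟨⟨g0, ?_⟩, fun h => g1 (hCB h), fun h => g2 (hCB h)⟩, g3⟩
          intro h
          rw [Set.mem_singleton_iff.1 h] at g1 g2
          rcases hEn with ⟨h11, -⟩ | ⟨h11, -⟩
          · rw [← h11] at g1; exact g1 hpK
          · rw [← h11] at g2; exact g2 hpK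
    · rw [← hD]
      exact xaSub c d d (D / 2) k F G hd le_rfl (by omega) (by omega) hXA
    · rw [← hD]
      exact xaSub c d (2 * D) k k F G hd (by omega) (by omega) le_rfl hXA
  · left
    refine ⟨u1, hu1, x1, hx1, ⟨w1, hw1, h5.mono ?_⟩, ⟨y1, hy1, h7.mono ?_⟩, hc⟩
    · rintro g ⟨g1, g2⟩
      exact ⟨hFG g1, g2⟩
    · rintro g ⟨⟨g1, -⟩, g2⟩
      exact ⟨g1, g2⟩

end Pool.Agent.N717.EW
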