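import Pool.Agent.H974R2.Cross
import Pool.Agent.H984R4.NP.Defs

/-!
Project EW (helper116): general planar lemmas.
-/

set_option autoImplicit false

namespace Pool.Agent.N717.EW

open H974 Finset H984N

/-- membership is constant along a path -/
theorem const_path {G : Set Edg} {K : Set Vtx} (hG : ∀ g ∈ G, (src g ∈ K ↔ tgt g ∈ K))
    {u v : Vtx} (h : Reach G u v) : u ∈ K ↔ v ∈ K := by
  induction h with
  | refl => exact Iff.rfl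
  | tail _ hs ih =>
    obtain ⟨e, he, hc⟩ := hs
    have := hG e he
    rcases hc with ⟨h4, h5⟩ | ⟨h4, h5⟩
    · rw [ih, ← h4, ← h5]; exact this
    · rw [ih, ← h4, ← h5]; exact this.symm

/-- crossings of the two types are on the same side of a set -/
theorem meetK {a b c d : ℤ} (hab : a < b) (hcd : c ≤ d) (K : Set Vtx) {y y' x x' : ℤ}
    (hy' : c ≤ y' ∧ y' ≤ d) (hx : a ≤ x ∧ x ≤ b) {G1 G2 : Set Edg}
    (h1 : Reach (G1 ∩ ↑(LRE a b c d)) (a, y) (b, y'))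
    (h2 : Reach (G2 ∩ ↑(TBE a b c d)) (x, c) (x', d))
    (hG1 : ∀ g ∈ G1, (src g ∈ K ↔ tgt g ∈ K)) (hG2 : ∀ g ∈ G2, (src g ∈ K ↔ tgt g ∈ K)) :
    ((a, y) : Vtx) ∈ K ↔ ((x, c) : Vtx) ∈ K := by
  have h := crossings_meet (F := {g | src g ∈ K ↔ tgt g ∈ K}) hab hcd hy' hx
    (h1.mono (by rintro g ⟨h3, h4⟩; exact ⟨hG1 g h3, h4⟩))
    (h2.mono (by rintro g ⟨h3, h4⟩; exact ⟨hG2 g h3, h4⟩))
  exact const_path (fun g hg => hg.1) h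

theorem dadj_tps {G : Set Edg} {f g : Vtx} (h : DAdj G f g) :
    DAdj (tps.φ '' G) (f.2, f.1) (g.2, g.1) := by
  obtain ⟨⟨x, y, b⟩, he, hc⟩ := h
  refine ⟨tps.φ (x, y, b), ⟨_, he, rfl⟩, ?_⟩
  cases b
  · simp only [dsrc_false, dtgt_mk] at hc
    simp only [tps_φ, Bool.not_false, dsrc_true, dtgt_mk]
    rcases hc with ⟨rfl, rfl⟩ | ⟨rfl, rfl⟩
    · exact Or.inl ⟨rfl, rfl⟩
    · exact Or.inr ⟨rfl, rfl⟩
  · simp only [dsrc_true, dtgt_mk] at hc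
    simp only [tps_φ, Bool.not_true, dsrc_false, dtgt_mk]
    rcases hc with ⟨rfl, rfl⟩ | ⟨rfl, rfl⟩
    · exact Or.inl ⟨rfl, rfl⟩
    · exact Or.inr ⟨rfl, rfl⟩

theorem dreach_tps {G : Set Edg} {f g : Vtx} (h : DReach G f g) :
    DReach (tps.φ '' G) (f.2, f.1) (g.2, g.1) := by
  induction h with
  | refl => exact DReach.refl _ _
  | tail _ hs ih => exact ih.trans (dadj_tps hs).reach

/-- An open top-bottom crossing and a closed dual left-right crossing cannot coexist. -/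
theorem no_both_T {a b c d : ℤ} (hab : a ≤ b) {F : Set Edg} {y y' x x' : ℤ}
    (hx' : a ≤ x' ∧ x' ≤ b) (hy : c ≤ y ∧ y < d)
    (h1 : Reach (F ∩ ↑(TBE a b c d)) (x, c) (x', d))
    (h2 : DReach (Fᶜ ∩ ↑(TBE a b c d)) (a - 1, y) (b, y')) : False := by
  have e1 : tps.φ '' (F ∩ ↑(TBE a b c d)) = (tps.φ '' F) ∩ ↑(LRE c d a b) := by
    rw [Set.image_inter tps.φ.injective, ← LSym.coe_mp, tps_TBE]
  have e2 : tps.φ '' (Fᶜ ∩ ↑(TBE a b c d)) = (tps.φ '' F)ᶜ ∩ ↑(LRE c d a b) := by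
    rw [Set.image_inter tps.φ.injective, Set.image_compl_eq tps.φ.bijective, ← LSym.coe_mp,
      tps_TBE]
  have h3 := tps.reach h1
  rw [e1, tps_ψ, tps_ψ] at h3
  have h4 := dreach_tps h2
  rw [e2] at h4
  exact no_both hab hx' hy h3 h4

/-- If `W` contains the bottom side and misses the top side, then there is a dual left-right
crossing through boundary edges of `W`. -/
theorem dual_crossing_T {a b c d : ℤ} (hab : a ≤ b) (hcd : c ≤ d) (W : Vtx → Prop)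
    (hL : ∀ x, a ≤ x → x ≤ b → W (x, c)) (hR : ∀ x, a ≤ x → x ≤ b → ¬ W (x, d)) :
    ∃ y y', (c ≤ y ∧ y < d) ∧ (c ≤ y' ∧ y' < d) ∧
      DReach (bdry W ∩ ↑(TBE a b c d)) (a - 1, y) (b, y') := by
  obtain ⟨y, y', h1, h2, h3⟩ := dual_crossing hcd hab (fun v => W (v.2, v.1)) hL hR
  refine ⟨y, y', h1, h2, ?_⟩
  have h4 := dreach_tps h3
  refine h4.mono ?_
  rintro _ ⟨⟨x0, y0, b0⟩, ⟨he1, he2⟩, rfl⟩
  refine ⟨?_, ?_⟩
  · intro hw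
    apply he1
    cases b0
    · exact hw
    · exact hw
  · rw [← tps_LRE, Finset.mem_coe, LSym.mem_mp]
    simpa using he2

/-- no open left-right crossing: closed dual top-bottom crossing -/
theorem dual_of_not_LRc {a b c d : ℤ} (hab : a ≤ b) (hcd : c ≤ d) {F : Finset Edg}
    (h : ¬ LRc a b c d F) : ∃ x x', (a ≤ x ∧ x < b) ∧ (a ≤ x' ∧ x' < b) ∧
      DReach ({e | e ∉ F} ∩ ↑(LRE a b c d)) (x, c - 1) (x', d) := by
  obtain ⟨x, x', hx, hx', hr⟩ := dual_crossing hab hcd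
    (fun v => ∃ y, (c ≤ y ∧ y ≤ d) ∧ Reach (↑F ∩ ↑(LRE a b c d)) (a, y) v)
    (fun y h3 h4 => ⟨y, ⟨h3, h4⟩, Reach.refl _ _⟩)
    (fun y h3 h4 ⟨y0, h5, h6⟩ => h ⟨y0, y, h5, ⟨h3, h4⟩, h6⟩)
  refine ⟨x, x', hx, hx', hr.mono ?_⟩
  rintro e ⟨he1, he2⟩
  refine ⟨fun heF => he1 ⟨?_, ?_⟩, he2⟩
  · rintro ⟨y, h3, h4⟩
    exact ⟨y, h3, h4.trans (Adj.reach ⟨e, ⟨heF, he2⟩, Or.inl ⟨rfl, rfl⟩⟩)⟩
  · rintro ⟨y, h3, h4⟩
    exact ⟨y, h3, h4.trans (Adj.reach ⟨e, ⟨heF, he2⟩, Or.inr ⟨rfl, rfl⟩⟩)⟩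

/-- no open top-bottom crossing: closed dual left-right crossing -/
theorem dual_of_not_TBc {a b c d : ℤ} (hab : a ≤ b) (hcd : c ≤ d) {F : Finset Edg}
    (h : ¬ TBc a b c d F) : ∃ y y', (c ≤ y ∧ y < d) ∧ (c ≤ y' ∧ y' < d) ∧
      DReach ({e | e ∉ F} ∩ ↑(TBE a b c d)) (a - 1, y) (b, y') := by
  obtain ⟨x, x', hx, hx', hr⟩ := dual_crossing_T hab hcd
    (fun v => ∃ x, (a ≤ x ∧ x ≤ b) ∧ Reach (↑F ∩ ↑(TBE a b c d)) (x, c) v)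
    (fun y h3 h4 => ⟨y, ⟨h3, h4⟩, Reach.refl _ _⟩)
    (fun y h3 h4 ⟨y0, h5, h6⟩ => h ⟨y0, y, h5, ⟨h3, h4⟩, h6⟩)
  refine ⟨x, x', hx, hx', hr.mono ?_⟩
  rintro e ⟨he1, he2⟩
  refine ⟨fun heF => he1 ⟨?_, ?_⟩, he2⟩
  · rintro ⟨y, h3, h4⟩
    exact ⟨y, h3, h4.trans (Adj.reach ⟨e, ⟨heF, he2⟩, Or.inl ⟨rfl, rfl⟩⟩)⟩
  · rintro ⟨y, h3, h4⟩
    exact ⟨y, h3, h4.trans (Adj.reach ⟨e, ⟨heF, he2⟩, Or.inr ⟨rfl, rfl⟩⟩)⟩

/-- a cell of the grid between two coordinates -/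
theorem grid {l r x0 x1 : ℤ} {s N : ℕ} (hs : 1 ≤ s) (h0 : l ≤ x0) (h1 : x1 ≤ r)
    (h2 : x0 + 2 * s ≤ x1) (hN : r - l ≤ N * s) :
    ∃ i : ℕ, i < N ∧ x0 ≤ l + i * s ∧ l + (i + 1) * s ≤ x1 := by
  have hs' : (0:ℤ) < s := by exact_mod_cast hs
  obtain ⟨q, hq⟩ : ∃ q, q = (x0 - l) / s := ⟨_, rfl⟩
  have hq0 : 0 ≤ q := by rw [hq]; exact Int.ediv_nonneg (by omega) hs'.le
  have hq1 : q * s ≤ x0 - l := by rw [hq]; exact Int.ediv_mul_le _ hs'.ne'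
  have hq2 : x0 - l < (q + 1) * s := by rw [hq]; exact Int.lt_ediv_add_one_mul_self _ hs'
  obtain ⟨i, hi⟩ := Int.eq_ofNat_of_zero_le (show 0 ≤ q + 1 by omega)
  have e : ((i : ℤ) + 1) * s = (i : ℤ) * s + s := by ring
  have e2 : (q + 1) * (s:ℤ) = q * s + s := by ring
  rw [e2] at hq2
  have e3 : (i : ℤ) * s = q * s + s := by rw [← hi]; ring
  have h4 : l + ((i : ℤ) + 1) * s ≤ x1 := by rw [e, e3]; omega
  refine ⟨i, ?_, by rw [e3]; omega, h4⟩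
  by_contra hlt
  push Not at hlt
  have : (N : ℤ) * s ≤ (i : ℤ) * s := mul_le_mul_of_nonneg_right (by exact_mod_cast hlt) hs'.le
  rw [e] at h4
  omega

end Pool.Agent.N717.EW
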