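import Pool.Agent.N116.EW.Defs
import Pool.Agent.N717.EW.Det0

/-!
Project EW (helper116): long excursions and crossings of columns and rows.
-/

set_option autoImplicit false

namespace Pool.Agent.N717.EW

open H974 Finset H984N
open Pool.Agent.N116.EW

variable {D : Dm}

theorem mem_edges {e : Edg} : e ∈ D.edges ↔ e ∈ RE D.l D.r 0 D.h := Iff.rfl

theorem wir_sub (hD : D.Ok) {e : Edg} (he : e ∈ D.wir) : e ∈ D.edges := by
  obtain ⟨h1, h2, h3, h4, h5⟩ := hD
  obtain ⟨x, y, b⟩ := e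
  rw [mem_edges]
  unfold Dm.wir at he
  simp only [Set.mem_ofPred_eq] at he
  cases b
  · rw [mem_RE_false]
    simp at he
    omega
  · rw [mem_RE_true]
    simp at he
    omega

theorem wir_iff {x y : ℤ} : (((x, y, true) : Edg) ∈ D.wir ↔
    (y = D.h ∧ D.l ≤ x ∧ x < D.t) ∨ (y = 0 ∧ D.l ≤ x ∧ x < 0)) ∧
    (((x, y, false) : Edg) ∈ D.wir ↔ (x = D.l ∧ 0 ≤ y ∧ y < D.h)) := by
  constructor <;> simp [Dm.wir]

/-- the wired vertices belong to the cluster -/
theorem clu_bot (F : Finset Edg) : ∀ k : ℕ, D.l ≤ -(k : ℤ) → ((-(k : ℤ), 0) : Vtx) ∈ D.clu F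
  | 0, _ => by
    show Reach (D.cfg F) (0, 0) (-((0:ℕ):ℤ), 0)
    simpa using Reach.refl _ _
  | k + 1, h => by
    have ih := clu_bot F k (by push_cast at h; omega)
    refine Reach.trans ih (Adj.reach ⟨(-((k + 1 : ℕ) : ℤ), 0, true), Or.inr ?_, Or.inr ⟨rfl, ?_⟩⟩)
    · rw [wir_iff.1]
      right
      push_cast at h ⊢
      refine ⟨trivial, by omega, by omega⟩
    · simp

theorem clu_left0 (hD : D.Ok) (F : Finset Edg) : ∀ k : ℕ, (k : ℤ) ≤ D.h →
    ((D.l, (k : ℤ)) : Vtx) ∈ D.clu F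
  | 0, _ => by
    obtain ⟨m, hm⟩ := Int.eq_ofNat_of_zero_le (show 0 ≤ -D.l by have := hD.l_neg; omega)
    have h := clu_bot (D := D) F m (by rw [← hm]; omega)
    rw [← hm] at h
    simpa using h
  | k + 1, h => by
    have ih := clu_left0 hD F k (by push_cast at h; omega)
    refine Reach.trans ih (Adj.reach ⟨(D.l, (k : ℤ), false), Or.inr ?_, Or.inl ⟨rfl, ?_⟩⟩)
    · rw [wir_iff.2]
      push_cast at h ⊢
      omega
    · simp

theorem clu_left (hD : D.Ok) (F : Finset Edg) {y : ℤ} (h0 : 0 ≤ y) (h1 : y ≤ D.h) :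
    ((D.l, y) : Vtx) ∈ D.clu F := by
  obtain ⟨m, rfl⟩ := Int.eq_ofNat_of_zero_le h0
  exact clu_left0 hD F m h1

theorem clu_top (hD : D.Ok) (F : Finset Edg) : ∀ k : ℕ, D.l + (k : ℤ) ≤ D.t →
    ((D.l + (k : ℤ), D.h) : Vtx) ∈ D.clu F
  | 0, _ => by
    have := clu_left hD F hD.h_pos.le le_rfl
    simpa using this
  | k + 1, h => by
    have ih := clu_top hD F k (by push_cast at h; omega)
    refine Reach.trans ih (Adj.reach ⟨(D.l + (k : ℤ), D.h, true), Or.inr ?_, Or.inl ⟨rfl, ?_⟩⟩)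
    · rw [wir_iff.1]
      left
      push_cast at h ⊢
      omega
    · simp [add_assoc]

/-- wired edges have both ends in the cluster -/
theorem wir_clu (hD : D.Ok) (F : Finset Edg) {e : Edg} (he : e ∈ D.wir) : src e ∈ D.clu F := by
  obtain ⟨x, y, b⟩ := e
  cases b
  · rw [wir_iff.2] at he
    obtain ⟨rfl, h1, h2⟩ := he
    exact clu_left hD F h1 h2.le
  · rw [wir_iff.1] at he
    rcases he with ⟨rfl, h1, h2⟩ | ⟨rfl, h1, h2⟩
    · obtain ⟨m, hm⟩ := Int.eq_ofNat_of_zero_le (show 0 ≤ x - D.l by omega)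
      have := clu_top hD F m (by rw [← hm]; omega)
      rw [← hm] at this
      simpa using this
    · obtain ⟨m, hm⟩ := Int.eq_ofNat_of_zero_le (show 0 ≤ -x by omega)
      have := clu_bot (D := D) F m (by rw [← hm]; omega)
      rw [← hm] at this
      simpa using this

/-- the cluster is a union of components of `F` -/
theorem clu_iff {F : Finset Edg} {e : Edg} (he : e ∈ D.cfg F) :
    src e ∈ D.clu F ↔ tgt e ∈ D.clu F := by
  have h : Adj (D.cfg F) (src e) (tgt e) := ⟨e, he, Or.inl ⟨rfl, rfl⟩⟩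
  exact ⟨fun h1 => Reach.trans h1 h.reach, fun h1 => Reach.trans h1 h.symm.reach⟩

/-- good upper event: open crossings of the columns and of the rows -/
def GoodU (D : Dm) (s N : ℕ) (F : Finset Edg) : Prop := ∀ i < N,
  (D.l + ((i : ℤ) + 1) * s ≤ D.r → TBc (D.l + i * s) (D.l + ((i : ℤ) + 1) * s) 0 D.h F) ∧
  (((i : ℤ) + 1) * s ≤ D.h → LRc D.l D.r (i * s) (((i : ℤ) + 1) * s) F)

/-- good lower event: no open crossings of the columns and of the rows -/
def GoodL (D : Dm) (s N : ℕ) (F : Finset Edg) : Prop := ∀ i < N,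
  (D.l + ((i : ℤ) + 1) * s ≤ D.r → ¬ LRc (D.l + i * s) (D.l + ((i : ℤ) + 1) * s) 0 D.h F) ∧
  (((i : ℤ) + 1) * s ≤ D.h → ¬ TBc D.l D.r (i * s) (((i : ℤ) + 1) * s) F)

/-- a set separated by the crossings cannot contain a long path -/
theorem sepU (hD : D.Ok) {s N : ℕ} (hs : 1 ≤ s) (hsh : (s : ℤ) ≤ D.h) (hN : 1 ≤ N)
    (hN1 : D.r - D.l ≤ N * s) (hN2 : D.h ≤ N * s) {F : Finset Edg} (hF : GoodU D s N F)
    {v w : Vtx} (hvin : inR D.l D.r 0 D.h v) (hwin : inR D.l D.r 0 D.h w) {K : Set Vtx}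
    (hK : ∀ e ∈ F, (src e ∈ K ↔ tgt e ∈ K)) (hK1 : ∀ y, 0 ≤ y → y ≤ D.h → ((D.l, y) : Vtx) ∈ K)
    (h : Reach {g | g ∈ D.edges ∧ src g ∉ K ∧ tgt g ∉ K} v w) (hv : v ∉ K)
    (hd : v.1 + 2 * s ≤ w.1 ∨ v.2 + 2 * s ≤ w.2) : False := by
  obtain ⟨G, hG⟩ : ∃ G : Set Edg, G = {g | g ∈ D.edges ∧ src g ∉ K ∧ tgt g ∉ K} := ⟨_, rfl⟩
  rw [← hG] at h
  have hGm : ∀ g ∈ G, g ∈ RE D.l D.r 0 D.h ∧ src g ∉ K ∧ tgt g ∉ K := by
    intro g hg
    rw [hG] at hg
    exact hg
  have hGK : ∀ g ∈ G, (src g ∈ K ↔ tgt g ∈ K) := by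
    intro g hg
    have := hGm g hg
    tauto
  unfold inR at hvin hwin
  rcases hd with hd | hd
  · obtain ⟨i, hi, h1, h2⟩ := grid (s := s) (N := N) hs hvin.1.1 hwin.1.2 hd hN1
    have e : ((i : ℤ) + 1) * s = (i : ℤ) * s + s := by ring
    have his : (0 : ℤ) ≤ (i : ℤ) * s := by positivity
    obtain ⟨x, x', hx, hx', hT⟩ := (hF i hi).1 (by omega)
    obtain ⟨y1, y2, hy1, hy2, hL, hL2⟩ := sub_LR (a := D.l + i * s) (b := D.l + ((i : ℤ) + 1) * s)
      (c := 0) (d := D.h) (by omega)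
      (by intro x y hg _ _; have := (hGm _ hg).1; rw [mem_RE_true] at this; omega)
      (by intro x y hg _ _; have := (hGm _ hg).1; rw [mem_RE_false] at this; omega) h h1 h2
    have hm := meetK (by omega) hD.h_pos.le K hy2 hx hL hT hGK (fun g hg => hK g hg)
    have hL3 := const_path hGK hL2
    -- the column crossing is in K
    obtain ⟨z1, z2, hz1, hz2, hR⟩ := (hF 0 hN).2 (by push_cast; omega)
    have e0 : (((0:ℕ) : ℤ)) * (s:ℤ) = 0 := by simp
    have e1 : (((0:ℕ) : ℤ) + 1) * (s:ℤ) = s := by simp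
    rw [e0, e1] at hR hz1 hz2
    obtain ⟨a1, a2, ha1, ha2, hA, hA2⟩ := sub_LR (G := ↑F ∩ ↑(LRE D.l D.r 0 (s:ℤ)))
      (a := D.l + i * s) (b := D.l + ((i : ℤ) + 1) * s)
      (c := 0) (d := (s:ℤ)) (by omega)
      (by intro x y hg _ _; have := hg.2; rw [Finset.mem_coe, mem_LRE_true] at this; omega)
      (by intro x y hg _ _; have := hg.2; rw [Finset.mem_coe, mem_LRE_false] at this; omega) hR
      (by simp only; omega) (by simp only; omega)
    obtain ⟨b1, b2, hb1, hb2, hB, hB2⟩ := sub_TB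
      (G := ↑F ∩ ↑(TBE (D.l + i * s) (D.l + ((i : ℤ) + 1) * s) 0 D.h))
      (a := D.l + i * s) (b := D.l + ((i : ℤ) + 1) * s)
      (c := 0) (d := (s:ℤ)) (by omega)
      (by intro x y hg _ _; have := hg.2; rw [Finset.mem_coe, mem_TBE_false] at this; omega)
      (by intro x y hg _ _; have := hg.2; rw [Finset.mem_coe, mem_TBE_true] at this; omega) hT
      (by simp only; omega) (by simp only; omega)
    have hm2 := meetK (by omega) (by omega) K ha2 hb1 hA hB (fun g hg => hK g hg.1)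
      (fun g hg => hK g hg.1)
    have c1 := const_path (K := K) (fun g hg => hK g hg.1) hA2
    have c2 := const_path (K := K) (fun g hg => hK g hg.1) hB2
    have c3 := hK1 z1 hz1.1 (by omega)
    tauto
  · obtain ⟨i, hi, h1, h2⟩ := grid (s := s) (N := N) hs hvin.2.1 hwin.2.2 hd (by omega)
    have e : ((i : ℤ) + 1) * s = (i : ℤ) * s + s := by ring
    have his : (0 : ℤ) ≤ (i : ℤ) * s := by positivity
    rw [zero_add] at h1 h2
    obtain ⟨x, x', hx, hx', hT⟩ := (hF i hi).2 (by omega)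
    obtain ⟨y1, y2, hy1, hy2, hL, hL2⟩ := sub_TB (a := D.l) (b := D.r) (c := i * s)
      (d := ((i : ℤ) + 1) * s) (by omega)
      (by intro x y hg _ _; have := (hGm _ hg).1; rw [mem_RE_false] at this; omega)
      (by intro x y hg _ _; have := (hGm _ hg).1; rw [mem_RE_true] at this; omega) h h1 h2
    have hm := meetK (by have := hD.l_neg; have := hD.r_pos; omega) (by omega) K hx' hy1 hT hL
      (fun g hg => hK g hg) hGK
    have hL3 := const_path hGK hL2
    have c3 := hK1 x (by omega) (by omega)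
    tauto

theorem in_of_edge {e : Edg} (he : e ∈ D.edges) : inR D.l D.r 0 D.h (src e) ∧
    inR D.l D.r 0 D.h (tgt e) := by
  obtain ⟨x, y, b⟩ := e
  rw [mem_edges] at he
  cases b
  · rw [mem_RE_false] at he
    simp only [src_mk, tgt_false, inR]
    omega
  · rw [mem_RE_true] at he
    simp only [src_mk, tgt_true, inR]
    omega

theorem in_of_reach {G : Set Edg} (hG : ∀ g ∈ G, g ∈ D.edges) {u v : Vtx}
    (hu : inR D.l D.r 0 D.h u) (h : Reach G u v) : inR D.l D.r 0 D.h v := by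
  induction h with
  | refl => exact hu
  | tail _ hs _ =>
    obtain ⟨e, he, hc⟩ := hs
    have := in_of_edge (hG e he)
    rcases hc with ⟨-, h5⟩ | ⟨h4, -⟩
    · rw [← h5]; exact this.2
    · rw [← h4]; exact this.1

/-- no long excursions of vertices above the good event -/
theorem badV_U (hD : D.Ok) {s N : ℕ} (hs : 1 ≤ s) (hsh : (s : ℤ) ≤ D.h) (hN : 1 ≤ N)
    (hN1 : D.r - D.l ≤ N * s) (hN2 : D.h ≤ N * s) {F : Finset Edg}
    (hF : GoodU D s N F) {ρ : ℕ} (hρ : 2 * s ≤ ρ) : ¬ BadV D ρ F D.edges := by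
  rintro ⟨e, heG, heF, x, v, y, hEn, -, hx, hv, -, w, hw, hr⟩
  have hcfg : ∀ g, g ∈ D.cfg D.edges → g ∈ D.edges := by
    rintro g (hg | hg)
    · exact hg
    · exact wir_sub hD hg
  have hr' : Reach {g | g ∈ D.edges ∧ src g ∉ D.clu F ∧ tgt g ∉ D.clu F} v w :=
    hr.mono (by rintro g ⟨h3, h4⟩; exact ⟨hcfg g h3, h4⟩)
  have hvin : inR D.l D.r 0 D.h v := by
    have := in_of_edge heG
    rcases hEn with ⟨-, rfl⟩ | ⟨-, rfl⟩
    · exact this.2
    · exact this.1
  have hwin := in_of_reach (fun g hg => hg.1) hvin hr'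
  have hwK : w ∉ D.clu F := by
    have := const_path (K := D.clu F) (fun g hg => by
      have h1 : src g ∉ D.clu F ∧ tgt g ∉ D.clu F := hg.2
      tauto) hr'
    tauto
  have hK : ∀ e ∈ F, (src e ∈ D.clu F ↔ tgt e ∈ D.clu F) := fun e he => clu_iff (Or.inl he)
  have key := fun {v w : Vtx} (h1 : inR D.l D.r 0 D.h v) (h2 : inR D.l D.r 0 D.h w) =>
    sepU hD hs hsh hN hN1 hN2 hF h1 h2 hK (fun y h3 h4 => clu_left hD F h3 h4)
  unfold sd at hw
  have hw2 : (2 * s : ℤ) ≤ |v.1 - w.1| ∨ (2 * s : ℤ) ≤ |v.2 - w.2| := by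
    have h3 : (2 * s : ℤ) ≤ ρ := by exact_mod_cast hρ
    rcases le_max_iff.1 (h3.trans hw) with h | h
    · exact Or.inl h
    · exact Or.inr h
  rcases hw2 with h | h
  · rcases le_abs.1 h with h | h
    · exact key hwin hvin hr'.symm hwK (Or.inl (by omega))
    · exact key hvin hwin hr' hv (Or.inl (by omega))
  · rcases le_abs.1 h with h | h
    · exact key hwin hvin hr'.symm hwK (Or.inr (by omega))
    · exact key hvin hwin hr' hv (Or.inr (by omega))

/-- a long closed dual path is impossible -/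
theorem sepW (hD : D.Ok) {s N : ℕ} (hs : 1 ≤ s)
    (hN1 : D.r - D.l ≤ N * s) (hN2 : D.h ≤ N * s) {F : Finset Edg} (hF : GoodU D s N F)
    {v w : Vtx} (hv1 : D.l ≤ v.1) (hv2 : -1 ≤ v.2) (hw1 : w.1 ≤ D.r) (hw2 : w.2 ≤ D.h)
    (h : DReach {g | g ∈ D.edges ∧ g ∉ D.cfg F} v w)
    (hd : v.1 + 2 * s + 1 ≤ w.1 ∨ v.2 + 2 * s + 1 ≤ w.2) : False := by
  obtain ⟨H, hH⟩ : ∃ H : Set Edg, H = {g | g ∈ D.edges ∧ g ∉ D.cfg F} := ⟨_, rfl⟩
  rw [← hH, ← reach_dl] at h
  have hHt : ∀ x y, ((x, y, true) : Edg) ∈ dl '' H → 0 ≤ y ∧ y < D.h ∧ D.l ≤ x ∧ x < D.r ∧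
      ((x + 1, y, false) : Edg) ∈ H := by
    rintro x y ⟨⟨x', y', b'⟩, he, heq⟩
    cases b'
    · rw [dl_f, Prod.mk.injEq, Prod.mk.injEq] at heq
      obtain ⟨e1, e2, -⟩ := heq
      have e3 : x + 1 = x' := by omega
      rw [e3, ← e2]
      have h1 : ((x', y', false) : Edg) ∈ D.edges ∧ ((x', y', false) : Edg) ∉ D.cfg F := by
        rw [hH] at he; exact he
      have h2 := h1.1
      rw [mem_edges, mem_RE_false] at h2
      have h3 : ((x', y', false) : Edg) ∉ D.wir := fun h => h1.2 (Or.inr h)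
      rw [wir_iff.2] at h3
      exact ⟨by omega, by omega, by omega, by omega, he⟩
    · rw [dl_t] at heq
      simp at heq
  have hHf : ∀ x y, ((x, y, false) : Edg) ∈ dl '' H → -1 ≤ y ∧ y < D.h ∧ D.l ≤ x ∧ x < D.r ∧
      ((x, y + 1, true) : Edg) ∈ H := by
    rintro x y ⟨⟨x', y', b'⟩, he, heq⟩
    cases b'
    · rw [dl_f] at heq
      simp at heq
    · rw [dl_t, Prod.mk.injEq, Prod.mk.injEq] at heq
      obtain ⟨e1, e2, -⟩ := heq
      have e3 : y + 1 = y' := by omega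
      rw [e3, ← e1]
      have h1 : ((x', y', true) : Edg) ∈ D.edges ∧ ((x', y', true) : Edg) ∉ D.cfg F := by
        rw [hH] at he; exact he
      have h2 := h1.1
      rw [mem_edges, mem_RE_true] at h2
      exact ⟨by omega, by omega, by omega, by omega, he⟩
  have hHF : ∀ g ∈ H, g ∈ D.edges ∧ g ∉ F := by
    intro g hg
    rw [hH] at hg
    exact ⟨hg.1, fun h => hg.2 (Or.inl h)⟩
  rcases hd with hd | hd
  · -- a column
    obtain ⟨i, hi, h1, h2⟩ := grid (l := D.l) (r := D.r) (x0 := v.1 + 1) (x1 := w.1) (s := s)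
      (N := N) hs (by omega) hw1 (by omega) hN1
    have e : ((i : ℤ) + 1) * s = (i : ℤ) * s + s := by ring
    have his : (0 : ℤ) ≤ (i : ℤ) * s := by positivity
    obtain ⟨a, ha⟩ : ∃ a : ℤ, a = D.l + i * s := ⟨_, rfl⟩
    obtain ⟨b, hb⟩ : ∃ b : ℤ, b = D.l + ((i : ℤ) + 1) * s := ⟨_, rfl⟩
    have hab : a + s = b := by rw [ha, hb, e]; ring
    obtain ⟨x, x', hx, hx', hT⟩ := (hF i hi).1 (by omega)
    rw [← ha, ← hb] at hx hx' hT
    rw [← ha] at h1
    rw [← hb] at h2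
    obtain ⟨y1, y2, hy1, hy2, hL, -⟩ := sub_LR (a := a - 1) (b := b) (c := -1) (d := D.h)
      (by omega)
      (by intro x y hg _ _; have := hHt x y hg; omega)
      (by intro x y hg _ _; have := hHf x y hg; omega) h (by omega) h2
    -- extended crossing
    obtain ⟨F', hF'⟩ : ∃ F' : Set Edg, F' = ↑F ∪ {g | g ∉ D.edges} := ⟨_, rfl⟩
    have hT' : Reach (F' ∩ ↑(TBE a b (-1) (D.h + 1))) (x, -1) (x', D.h + 1) := by
      have t1 : Adj (F' ∩ ↑(TBE a b (-1) (D.h + 1))) (x, -1) (x, 0) := by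
        refine ⟨(x, -1, false), ⟨?_, ?_⟩, Or.inl ⟨rfl, by simp⟩⟩
        · rw [hF']
          right
          show ((x, -1, false) : Edg) ∉ D.edges
          rw [mem_edges, mem_RE_false]
          omega
        · rw [Finset.mem_coe, mem_TBE_false]
          have := hD.h_pos
          omega
      have t2 : Adj (F' ∩ ↑(TBE a b (-1) (D.h + 1))) (x', D.h) (x', D.h + 1) := by
        refine ⟨(x', D.h, false), ⟨?_, ?_⟩, Or.inl ⟨rfl, by simp⟩⟩
        · rw [hF']
          right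
          show ((x', D.h, false) : Edg) ∉ D.edges
          rw [mem_edges, mem_RE_false]
          omega
        · rw [Finset.mem_coe, mem_TBE_false]
          have := hD.h_pos
          omega
      refine t1.reach.trans (Reach.trans (hT.mono ?_) t2.reach)
      rintro ⟨x0, y0, b0⟩ ⟨g1, g2⟩
      refine ⟨by rw [hF']; exact Or.inl g1, ?_⟩
      cases b0
      · rw [Finset.mem_coe, mem_TBE_false] at g2 ⊢; omega
      · rw [Finset.mem_coe, mem_TBE_true] at g2 ⊢; omega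
    have hDual : DReach (F'ᶜ ∩ ↑(TBE a b (-1) (D.h + 1))) (a - 1, y1) (b, y2) := by
      rw [← reach_dl]
      refine hL.mono ?_
      rintro g ⟨g1, g2⟩
      obtain ⟨g', hg', rfl⟩ := g1
      refine ⟨g', ⟨?_, ?_⟩, rfl⟩
      · rw [hF']
        rintro (h3 | h3)
        · exact (hHF g' hg').2 h3
        · exact h3 (hHF g' hg').1
      · have e3 : LRE (a - 1) b (-1) D.h = dmp (TBE a b (-1) (D.h + 1)) := by
          rw [dmp_TBE]; congr 1; ring
        rw [e3, Finset.mem_coe, mem_dmp, Equiv.symm_apply_apply] at g2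
        exact g2
    exact no_both_T (by omega) hx' (by omega) hT' hDual
  · -- a row
    obtain ⟨i, hi, h1, h2⟩ := grid (l := 0) (r := D.h) (x0 := v.2 + 1) (x1 := w.2) (s := s)
      (N := N) hs (by omega) hw2 (by omega) (by omega)
    rw [zero_add] at h1 h2
    have e : ((i : ℤ) + 1) * s = (i : ℤ) * s + s := by ring
    have his : (0 : ℤ) ≤ (i : ℤ) * s := by positivity
    obtain ⟨c, hc⟩ : ∃ c : ℤ, c = i * s := ⟨_, rfl⟩
    obtain ⟨d, hd'⟩ : ∃ d : ℤ, d = ((i : ℤ) + 1) * s := ⟨_, rfl⟩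
    have hcd : c + s = d := by rw [hc, hd', e]
    obtain ⟨x, x', hx, hx', hT⟩ := (hF i hi).2 (by omega)
    rw [← hc, ← hd'] at hx hx' hT
    rw [← hc] at h1 his
    rw [← hd'] at h2
    obtain ⟨y1, y2, hy1, hy2, hL, -⟩ := sub_TB (a := D.l) (b := D.r) (c := c - 1) (d := d)
      (by omega)
      (by intro x y hg _ _; have := hHf x y hg; omega)
      (by intro x y hg _ _; have := hHt x y hg; omega) h (by omega) h2
    obtain ⟨F', hF'⟩ : ∃ F' : Set Edg, F' = ↑F ∪ {g | g ∉ D.edges} := ⟨_, rfl⟩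
    have hT' : Reach (F' ∩ ↑(LRE D.l (D.r + 1) c d)) (D.l, x) (D.r + 1, x') := by
      have hl := hD.l_neg
      have hr := hD.r_pos
      have t2 : Adj (F' ∩ ↑(LRE D.l (D.r + 1) c d)) (D.r, x') (D.r + 1, x') := by
        refine ⟨(D.r, x', true), ⟨?_, ?_⟩, Or.inl ⟨rfl, by simp⟩⟩
        · rw [hF']
          right
          show ((D.r, x', true) : Edg) ∉ D.edges
          rw [mem_edges, mem_RE_true]
          omega
        · rw [Finset.mem_coe, mem_LRE_true]
          omega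
      refine Reach.trans (hT.mono ?_) t2.reach
      rintro ⟨x0, y0, b0⟩ ⟨g1, g2⟩
      refine ⟨by rw [hF']; exact Or.inl g1, ?_⟩
      cases b0
      · rw [Finset.mem_coe, mem_LRE_false] at g2 ⊢; omega
      · rw [Finset.mem_coe, mem_LRE_true] at g2 ⊢; omega
    have hDual : DReach (F'ᶜ ∩ ↑(LRE D.l (D.r + 1) c d)) (y1, c - 1) (y2, d) := by
      rw [← reach_dl]
      refine hL.mono ?_
      rintro g ⟨g1, g2⟩
      obtain ⟨g', hg', rfl⟩ := g1
      refine ⟨g', ⟨?_, ?_⟩, rfl⟩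
      · rw [hF']
        rintro (h3 | h3)
        · exact (hHF g' hg').2 h3
        · exact h3 (hHF g' hg').1
      · have e3 : TBE D.l D.r (c - 1) d = dmp (LRE D.l (D.r + 1) c d) := by
          rw [dmp_LRE]; congr 1; ring
        rw [e3, Finset.mem_coe, mem_dmp, Equiv.symm_apply_apply] at g2
        exact g2
    exact no_both (by omega) hx' (by omega) hT' hDual

end Pool.Agent.N717.EW
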